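import Mathlib

set_option autoImplicit false

/-!
# Small maximal chains in partition lattices

The lattice of all partitions of a set `X` is the type `Setoid X` of all equivalence relations on
`X`, ordered by inclusion.

Construction of small maximal chains. Let `X` be linearly ordered, and let `L i` (`i ∈ I`, with `I`
well-ordered without last element) be initial segments of `X` which separate the points. Let `E i`
be the relation `for all j < i, x ∈ L j iff y ∈ L j`. The classes of `E j` are convex, so at most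
one of them is cut into two by `L j`. Hence the relations `E i` and the identity form a maximal
chain, with at most `|I|` elements.
-/

open Cardinal Set

universe u

namespace Pool.Agent.Results.MP_98dabe_lc.SmallMaximalChains

/-! ### the construction -/

section construction

variable {X I : Type u} [LinearOrder X] [LinearOrder I] (L : I → Set X)

set_option linter.unusedSectionVars false

/-- not separated by the cuts before `i` -/
def E (i : I) : Setoid X where
  r x y := ∀ j < i, (x ∈ L j ↔ y ∈ L j)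
  iseqv := ⟨fun _ _ _ => Iff.rfl, fun h j hj => (h j hj).symm,
    fun h h' j hj => (h j hj).trans (h' j hj)⟩

theorem E_anti {i j : I} (h : i ≤ j) : E L j ≤ E L i :=
  fun _ _ hxy k hk => hxy k (hk.trans_le h)

/-- the classes are convex -/
theorem E_convex (hL : ∀ i, ∀ x ∈ L i, ∀ y, y ≤ x → y ∈ L i) {i : I} {x y z : X}
    (h : (E L i) x z) (hxy : x ≤ y) (hyz : y ≤ z) : (E L i) x y := by
  intro j hj
  refine ⟨fun hx => ?_, fun hy => hL j y hy x hxy⟩
  exact hL j z ((h j hj).1 hx) y hyz

theorem chain_max [WellFoundedLT I] [NoMaxOrder I] [Nonempty I]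
    (hL : ∀ i, ∀ x ∈ L i, ∀ y, y ≤ x → y ∈ L i)
    (hsep : ∀ x y, x < y → ∃ i, x ∈ L i ∧ y ∉ L i) :
    IsMaxChain (· ≤ ·) (insert ⊥ (range (E L))) := by
  classical
  have hsep' : ∀ x y, (∀ i, (x ∈ L i ↔ y ∈ L i)) → x = y := by
    intro x y h
    rcases lt_trichotomy x y with hxy | hxy | hxy
    · obtain ⟨i, h1, h2⟩ := hsep x y hxy
      exact absurd ((h i).1 h1) h2
    · exact hxy
    · obtain ⟨i, h1, h2⟩ := hsep y x hxy
      exact absurd ((h i).2 h1) h2
  refine ⟨?_, ?_⟩
  · rintro _ (rfl | ⟨i, rfl⟩) _ (rfl | ⟨j, rfl⟩) _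
    · exact Or.inl le_rfl
    · exact Or.inl bot_le
    · exact Or.inr bot_le
    · rcases le_total i j with h | h
      · exact Or.inr (E_anti L h)
      · exact Or.inl (E_anti L h)
  · intro t ht hsub
    refine Subset.antisymm hsub fun F hF => ?_
    have hcomp : ∀ i, F ≤ E L i ∨ E L i ≤ F := fun i =>
      ht.total hF (hsub (Or.inr ⟨i, rfl⟩))
    by_cases hall : ∀ i, F ≤ E L i
    · left
      rw [eq_bot_iff]
      intro x y hxy
      have : x = y := by
        refine hsep' x y fun i => ?_
        obtain ⟨k, hk⟩ := exists_gt i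
        exact hall k hxy i hk
      exact this
    · right
      push Not at hall
      have hwf : WellFounded ((· < ·) : I → I → Prop) := wellFounded_lt
      set i := hwf.min {i | ¬ F ≤ E L i} hall with hi
      have hi1 : ¬ F ≤ E L i := hwf.min_mem _ hall
      have hi2 : ∀ j < i, F ≤ E L j := by
        intro j hj
        by_contra hcon
        exact hwf.not_lt_min _ hcon hj
      have hi3 : E L i ≤ F := (hcomp i).resolve_left hi1
      -- `i` is a successor
      have hsucc : ∃ j < i, ∀ k < i, k ≤ j := by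
        by_contra hcon
        push Not at hcon
        apply hi1
        intro x y hxy j hj
        obtain ⟨k, hk1, hk2⟩ := hcon j hj
        exact hi2 k hk1 hxy j hk2
      obtain ⟨j, hji, hj⟩ := hsucc
      refine ⟨j, le_antisymm ?_ (hi2 j hji)⟩
      have hstep : ∀ x y, (E L j) x y → (x ∈ L j ↔ y ∈ L j) → (E L i) x y := by
        intro x y h1 h2 k hk
        rcases (hj k hk).lt_or_eq with h | h
        · exact h1 k h
        · rw [h]; exact h2
      obtain ⟨x, y, hxyF, hxyi⟩ : ∃ x y, F x y ∧ ¬ (E L i) x y := by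
        by_contra hcon
        push Not at hcon
        exact hi1 fun {x y} h => hcon x y h
      have hxyj : (E L j) x y := hi2 j hji hxyF
      -- we may assume that `x` is in `L j` and `y` is not
      have key : ∀ x y, F x y → (E L j) x y → x ∈ L j → y ∉ L j → E L j ≤ F := by
        intro x y hF1 hE1 hx hy
        have sub : ∀ u w, (E L j) u w → u ∈ L j → w ∉ L j → F u w := by
          intro u w huw hu hw
          have hxw : x < w := lt_of_not_ge fun h => hw (hL j x hx w h)
          have hxy : x < y := lt_of_not_ge fun h => hy (hL j x hx y h)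
          have huy : u < y := lt_of_not_ge fun h => hy (hL j u hu y h)
          have huw' : u < w := lt_of_not_ge fun h => hw (hL j u hu w h)
          have h1 : (E L j) x u := by
            rcases le_total x u with h | h
            · exact E_convex L hL hE1 h huy.le
            · have h2 := E_convex L hL huw h hxw.le
              exact (E L j).symm h2
          have h2 : (E L j) w y := (E L j).trans ((E L j).trans ((E L j).symm huw)
            ((E L j).symm h1)) hE1
          have h3 : F u x := hi3 (hstep u x ((E L j).symm h1) ⟨fun _ => hx, fun _ => hu⟩)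
          have h4 : F y w := hi3 (hstep y w ((E L j).symm h2)
            ⟨fun h => absurd h hy, fun h => absurd h hw⟩)
          exact F.trans h3 (F.trans hF1 h4)
        intro u w huw
        by_cases hu : u ∈ L j
        · by_cases hw : w ∈ L j
          · exact hi3 (hstep u w huw ⟨fun _ => hw, fun _ => hu⟩)
          · exact sub u w huw hu hw
        · by_cases hw : w ∈ L j
          · exact F.symm (sub w u ((E L j).symm huw) hw hu)
          · exact hi3 (hstep u w huw ⟨fun h => absurd h hu, fun h => absurd h hw⟩)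
      by_cases hx : x ∈ L j
      · by_cases hy : y ∈ L j
        · exact absurd (hstep x y hxyj ⟨fun _ => hy, fun _ => hx⟩) hxyi
        · exact key x y hxyF hxyj hx hy
      · by_cases hy : y ∈ L j
        · exact key y x (F.symm hxyF) ((E L j).symm hxyj) hy hx
        · exact absurd (hstep x y hxyj ⟨fun h => absurd h hx, fun h => absurd h hy⟩) hxyi

end construction

/-- From a family of at most `μ` cuts of a linear order on `X` which separate the points one gets
a maximal chain with at most `μ` members. -/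
theorem exists_chain {X : Type u} [LinearOrder X] (D : Type u) [Nonempty D] (L : D → Set X)
    (hL : ∀ i, ∀ x ∈ L i, ∀ y, y ≤ x → y ∈ L i)
    (hsep : ∀ x y, x < y → ∃ i, x ∈ L i ∧ y ∉ L i) (μ : Cardinal.{u}) (hμ : ℵ₀ ≤ μ)
    (hD : #D ≤ μ) : ∃ C : Set (Setoid X), IsMaxChain (· ≤ ·) C ∧ #C ≤ μ := by
  classical
  let I : Type u := μ.ord.ToType
  have hI : #I = μ := mk_ord_toType μ
  have hne : Nonempty I := by
    rw [← mk_ne_zero_iff, hI]
    exact (aleph0_pos.trans_le hμ).ne'
  have hmax : NoMaxOrder I := by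
    exact Cardinal.noMaxOrder hμ
  obtain ⟨g, hg⟩ : ∃ g : I → D, Function.Surjective g := by
    have h1 : #D ≤ #I := by rw [hI]; exact hD
    obtain ⟨e⟩ := h1
    exact ⟨Function.invFun e, Function.invFun_surjective e.injective⟩
  refine ⟨_, chain_max (fun i => L (g i)) (fun i => hL (g i)) (fun x y hxy => ?_), ?_⟩
  · obtain ⟨d, h⟩ := hsep x y hxy
    obtain ⟨i, rfl⟩ := hg d
    exact ⟨i, h⟩
  · refine (mk_insert_le).trans ?_
    refine (add_le_add_left (mk_range_le.trans hI.le) 1).trans ?_
    exact (add_one_eq hμ).le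

/-- the cuts of the lexicographic order -/
theorem exists_cuts (ν μ : Cardinal.{u}) (X : Type u) (hμ : ℵ₀ ≤ μ) (hX : #X ≤ 2 ^ ν)
    (hν0 : ν ≠ 0)
    (hsum : Cardinal.sum (fun a : ν.ord.ToType => (2 : Cardinal.{u}) ^ #(Iio a)) ≤ μ) :
    ∃ C : Set (Setoid X), IsMaxChain (· ≤ ·) C ∧ #C ≤ μ := by
  classical
  let N : Type u := ν.ord.ToType
  let P : Type u := Lex (N → Bool)
  have hP : #P = 2 ^ ν := by
    show #(N → Bool) = _
    rw [mk_arrow, mk_bool, mk_ord_toType]
    simp
  obtain ⟨e⟩ : #X ≤ #P := by rw [hP]; exact hX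
  let _ : LinearOrder X := LinearOrder.lift' e e.injective
  have hle : ∀ x y : X, x ≤ y ↔ e x ≤ e y := fun x y => Iff.rfl
  have hlt : ∀ x y : X, x < y ↔ e x < e y := fun x y => Iff.rfl
  let D : Type u := Σ a : N, (Iio a → Bool)
  let Z : D → Set P := fun d => {g | (∀ b : Iio d.1, ofLex g b.1 = d.2 b) ∧ ofLex g d.1 = false}
  let L : D → Set X := fun d => {x | ∃ g ∈ Z d, e x ≤ g}
  have hD : #D ≤ μ := by
    rw [mk_sigma]
    refine le_trans (le_of_eq ?_) hsum
    congr 1
    funext a
    rw [mk_arrow, mk_bool]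
    simp
  have hNne : Nonempty N := by
    rw [← mk_ne_zero_iff, mk_ord_toType]
    exact hν0
  have hDne : Nonempty D := by
    obtain ⟨a⟩ := hNne
    exact ⟨⟨a, fun _ => true⟩⟩
  refine exists_chain D L ?_ ?_ μ hμ hD
  · rintro d x ⟨g, hg, hxg⟩ y hyx
    exact ⟨g, hg, ((hle y x).1 hyx).trans hxg⟩
  · intro x y hxy
    obtain ⟨a, ha1, ha2⟩ := (hlt x y).1 hxy
    have h1 : ofLex (e x) a = false ∧ ofLex (e y) a = true := by
      revert ha2
      show ofLex (e x) a < ofLex (e y) a → _
      cases h : ofLex (e x) a <;> cases h' : ofLex (e y) a <;> simp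
    refine ⟨⟨a, fun b => ofLex (e x) b.1⟩, ⟨e x, ⟨fun b => rfl, h1.1⟩, le_rfl⟩, ?_⟩
    rintro ⟨g, ⟨hg1, hg2⟩, hyg⟩
    refine absurd hyg (not_le.2 ?_)
    refine ⟨a, fun b hb => ?_, ?_⟩
    · have h2 := hg1 ⟨b, hb⟩
      have h3 := ha1 b hb
      exact h2.trans h3
    · show ofLex g a < ofLex (e y) a
      rw [hg2, h1.2]
      decide

/-! ### the lower bound -/

/-- the join of `E` with the pair `(x, y)` -/
def glue {X : Type u} (E : Setoid X) (x y : X) : Setoid X where
  r a b := E a b ∨ ((E a x ∨ E a y) ∧ (E b x ∨ E b y))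
  iseqv := by
    refine ⟨fun a => Or.inl (E.refl a), ?_, ?_⟩
    · rintro a b (h | h)
      · exact Or.inl (E.symm h)
      · exact Or.inr ⟨h.2, h.1⟩
    · rintro a b c (h | h) (h' | h')
      · exact Or.inl (E.trans h h')
      · exact Or.inr ⟨h'.1.imp (fun k => E.trans h k) (fun k => E.trans h k), h'.2⟩
      · exact Or.inr ⟨h.1, h.2.imp (fun k => E.trans (E.symm h') k)
          (fun k => E.trans (E.symm h') k)⟩
      · exact Or.inr ⟨h.1, h'.2⟩

theorem le_glue {X : Type u} (E : Setoid X) (x y : X) : E ≤ glue E x y := fun _ _ h => Or.inl h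

theorem glue_le {X : Type u} {E F : Setoid X} {x y : X} (h : E ≤ F) (hxy : F x y) :
    glue E x y ≤ F := by
  rintro a b (h1 | ⟨h1, h2⟩)
  · exact h h1
  · have ha : F a x := h1.elim (fun k => h k) (fun k => F.trans (h k) (F.symm hxy))
    have hb : F b x := h2.elim (fun k => h k) (fun k => F.trans (h k) (F.symm hxy))
    exact F.trans ha (F.symm hb)

/-- A maximal chain in the partition lattice of `X` with `c` members: `|X| ≤ 2 ^ c`. -/
theorem mk_le_two_power {X : Type u} (C : Set (Setoid X)) (hC : IsMaxChain (· ≤ ·) C) :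
    #X ≤ 2 ^ #C := by
  classical
  have hmem : ∀ F : Setoid X, (∀ G ∈ C, F ≤ G ∨ G ≤ F) → F ∈ C := by
    intro F hF
    have h1 : IsChain (· ≤ ·) (insert F C) := by
      refine hC.1.insert fun G hG _ => hF G hG
    have h2 := hC.2 h1 (subset_insert F C)
    rw [h2]
    exact mem_insert F C
  -- the largest member which separates `x` and `y`, the smallest which joins them
  let lo : X → X → Setoid X := fun x y => sSup {G | G ∈ C ∧ ¬ G x y}
  have hchainlo : ∀ x y, ∀ a b, (lo x y) a b ↔ a = b ∨ ∃ G ∈ C, ¬ G x y ∧ G a b := by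
    intro x y a b
    by_cases hne : ({G | G ∈ C ∧ ¬ G x y} : Set (Setoid X)).Nonempty
    · have hdir : DirectedOn (· ≤ ·) ({G | G ∈ C ∧ ¬ G x y} : Set (Setoid X)) := by
        intro G hG G' hG'
        rcases hC.1.total hG.1 hG'.1 with h | h
        · exact ⟨G', hG', h, le_rfl⟩
        · exact ⟨G, hG, le_rfl, h⟩
      constructor
      · intro h
        right
        -- the union is an equivalence relation
        let U : Setoid X :=
          { r := fun a b => ∃ G ∈ C, ¬ G x y ∧ G a b
            iseqv := by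
              refine ⟨fun a => ?_, ?_, ?_⟩
              · obtain ⟨G, hG⟩ := hne
                exact ⟨G, hG.1, hG.2, G.refl a⟩
              · rintro a b ⟨G, h1, h2, h3⟩
                exact ⟨G, h1, h2, G.symm h3⟩
              · rintro a b c ⟨G, h1, h2, h3⟩ ⟨G', h1', h2', h3'⟩
                rcases hC.1.total h1 h1' with h | h
                · exact ⟨G', h1', h2', G'.trans (h h3) h3'⟩
                · exact ⟨G, h1, h2, G.trans h3 (h h3')⟩ }
        have hU : lo x y ≤ U := by
          refine sSup_le ?_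
          rintro G ⟨h1, h2⟩ a b hab
          exact ⟨G, h1, h2, hab⟩
        exact hU h
      · rintro (rfl | ⟨G, h1, h2, h3⟩)
        · exact (lo x y).refl a
        · exact (le_sSup (show G ∈ {G | G ∈ C ∧ ¬ G x y} from ⟨h1, h2⟩)) h3
    · rw [not_nonempty_iff_eq_empty] at hne
      have hlo : lo x y = ⊥ := by simp only [lo, hne, sSup_empty]
      rw [hlo]
      constructor
      · intro h
        exact Or.inl h
      · rintro (rfl | ⟨G, h1, h2, _⟩)
        · exact (⊥ : Setoid X).refl a
        · have : G ∈ ({G | G ∈ C ∧ ¬ G x y} : Set (Setoid X)) := ⟨h1, h2⟩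
          rw [hne] at this
          exact absurd this (notMem_empty _)
  have hlo1 : ∀ x y, lo x y ∈ C := by
    intro x y
    refine hmem _ fun G hG => ?_
    by_cases h : G x y
    · left
      refine sSup_le ?_
      rintro G' ⟨h1, h2⟩
      rcases hC.1.total h1 hG with h3 | h3
      · exact h3
      · exact absurd (h3 h) h2
    · right
      exact le_sSup ⟨hG, h⟩
  have hlo2 : ∀ x y, x ≠ y → ¬ (lo x y) x y := by
    intro x y hne h
    rcases (hchainlo x y x y).1 h with h | ⟨G, _, h2, h3⟩
    · exact hne h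
    · exact h2 h3
  -- the successor of `lo x y` in the chain is `glue (lo x y) x y`
  have hglue : ∀ x y, x ≠ y → ∀ G ∈ C, G ≤ lo x y ∨ glue (lo x y) x y ≤ G := by
    intro x y hne G hG
    by_cases h : G x y
    · right
      refine glue_le ?_ h
      refine sSup_le ?_
      rintro G' ⟨h1, h2⟩
      rcases hC.1.total h1 hG with h3 | h3
      · exact h3
      · exact absurd (h3 h) h2
    · left
      exact le_sSup ⟨hG, h⟩
  have hglueC : ∀ x y, x ≠ y → glue (lo x y) x y ∈ C := by
    intro x y hne
    refine hmem _ fun G hG => ?_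
    rcases hglue x y hne G hG with h | h
    · exact Or.inr (h.trans (le_glue _ _ _))
    · exact Or.inl h
  -- choose a pair for each member of the form `lo x y`
  let A : C → Set X := fun G =>
    if h : ∃ p : X × X, p.1 ≠ p.2 ∧ lo p.1 p.2 = G.1 then {a | G.1 a h.choose.1} else ∅
  have hA : ∀ x y, x ≠ y → ((x ∈ A ⟨lo x y, hlo1 x y⟩) ↔ ¬ (y ∈ A ⟨lo x y, hlo1 x y⟩)) := by
    intro x y hne
    have hex : ∃ p : X × X, p.1 ≠ p.2 ∧ lo p.1 p.2 = lo x y := ⟨(x, y), hne, rfl⟩
    have hAd : A ⟨lo x y, hlo1 x y⟩ = {a | (lo x y) a hex.choose.1} := by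
      simp only [A]
      rw [dif_pos hex]
    rw [hAd]
    obtain ⟨hp1, hp2⟩ := hex.choose_spec
    set p := hex.choose with hp
    have hnp : ¬ (lo x y) p.1 p.2 := by rw [← hp2]; exact hlo2 _ _ hp1
    -- the two successors coincide
    have hg1 : glue (lo x y) p.1 p.2 ∈ C := by rw [← hp2]; exact hglueC _ _ hp1
    have hg2 : (glue (lo x y) p.1 p.2) x y := by
      rcases hglue x y hne _ hg1 with h | h
      · exact absurd (h (Or.inr ⟨Or.inl ((lo x y).refl _), Or.inr ((lo x y).refl _)⟩)) hnp
      · exact h (Or.inr ⟨Or.inl ((lo x y).refl _), Or.inr ((lo x y).refl _)⟩)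
    have hnxy : ¬ (lo x y) x y := hlo2 x y hne
    simp only [mem_ofPred_eq]
    rcases hg2 with h | ⟨h1, h2⟩
    · exact absurd h hnxy
    · constructor
      · intro hx hy
        exact hnxy ((lo x y).trans hx ((lo x y).symm hy))
      · intro hy
        rcases h2 with h2 | h2
        · exact absurd h2 hy
        · rcases h1 with h1 | h1
          · exact h1
          · exact absurd ((lo x y).trans h1 ((lo x y).symm h2)) hnxy
  have hinj : Function.Injective fun x : X => {G : C | x ∈ A G} := by
    intro x y hxy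
    by_contra hne
    have h1 := hA x y hne
    have h2 : (⟨lo x y, hlo1 x y⟩ : C) ∈ {G : C | x ∈ A G} ↔
        (⟨lo x y, hlo1 x y⟩ : C) ∈ {G : C | y ∈ A G} := by
      have : ({G : C | x ∈ A G} : Set C) = {G : C | y ∈ A G} := hxy
      rw [this]
    simp only [mem_ofPred_eq] at h2
    tauto
  have h3 := mk_le_of_injective hinj
  rwa [mk_set] at h3

/-- For every infinite cardinal `μ` the partition lattice of a set of cardinality `μ⁺` has a
maximal chain with at most `μ` members. -/
theorem successor (μ : Cardinal.{u}) (hμ : ℵ₀ ≤ μ) (X : Type u) (hX : #X = Order.succ μ) :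
    ∃ C : Set (Setoid X), IsMaxChain (· ≤ ·) C ∧ #C ≤ μ := by
  set ν : Cardinal.{u} := sInf {c | μ < 2 ^ c} with hν
  have hne : ({c : Cardinal.{u} | μ < 2 ^ c}).Nonempty := ⟨μ, cantor μ⟩
  have h1 : μ < 2 ^ ν := csInf_mem hne
  have h2 : ν ≤ μ := csInf_le' (cantor μ)
  have h3 : ∀ l < ν, (2 : Cardinal.{u}) ^ l ≤ μ := by
    intro l hl
    by_contra hcon
    exact absurd hl (not_lt.2 (csInf_le' (show l ∈ {c : Cardinal.{u} | μ < 2 ^ c} from
      not_le.1 hcon)))
  have h4 : ν ≠ 0 := by
    intro h
    rw [h, power_zero] at h1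
    exact absurd h1 (not_lt.2 (one_le_aleph0.trans hμ))
  refine exists_cuts ν μ X hμ (hX.le.trans (Order.succ_le_of_lt h1)) h4 ?_
  calc Cardinal.sum (fun a : ν.ord.ToType => (2 : Cardinal.{u}) ^ #(Iio a))
      ≤ Cardinal.sum (fun _ : ν.ord.ToType => μ) :=
        Cardinal.sum_le_sum _ _ fun a => h3 _ (mk_Iio_toType_ord_lt a)
    _ = ν * μ := by rw [Cardinal.sum_const', mk_ord_toType]
    _ ≤ μ * μ := mul_le_mul' h2 le_rfl
    _ = μ := mul_eq_self hμ

/-- **Small maximal chains exist.** Here `Setoid X` is the partition lattice of `X`.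
(1) For every infinite cardinal `μ` and every set of cardinality `κ = μ⁺` there is a maximal chain
with at most `μ < cf κ` members.
(2) For a set of cardinality `κ = 2 ^ ℵ₀` there is a countable maximal chain, and `ℵ₀ < cf κ`.
(3) For regular `κ`, there is a maximal chain with fewer than `cf κ` members if and only if `κ` is
not a strong limit cardinal.
(4) For every set `X` and every maximal chain `C` one has `|X| ≤ 2 ^ |C|`. -/
theorem result :
    (∀ μ : Cardinal.{u}, ℵ₀ ≤ μ → ∀ X : Type u, #X = Order.succ μ →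
      ∃ C : Set (Setoid X), IsMaxChain (· ≤ ·) C ∧ #C ≤ μ ∧ #C < (#X).ord.cof) ∧
    (∀ X : Type u, #X = 𝔠 →
      ∃ C : Set (Setoid X), IsMaxChain (· ≤ ·) C ∧ #C ≤ ℵ₀ ∧ #C < (#X).ord.cof) ∧
    (∀ X : Type u, (#X).IsRegular →
      ((∃ C : Set (Setoid X), IsMaxChain (· ≤ ·) C ∧ #C < (#X).ord.cof) ↔
        ¬ (#X).IsStrongLimit)) ∧
    (∀ (X : Type u) (C : Set (Setoid X)), IsMaxChain (· ≤ ·) C → #X ≤ 2 ^ #C) := by
  refine ⟨fun μ hμ X hX => ?_, fun X hX => ?_, fun X hreg => ⟨?_, fun hns => ?_⟩,
    fun X C hC => mk_le_two_power C hC⟩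
  · obtain ⟨C, h1, h2⟩ := successor μ hμ X hX
    refine ⟨C, h1, h2, ?_⟩
    rw [hX, (isRegular_succ hμ).cof_ord]
    exact Order.lt_succ_of_le h2
  · obtain ⟨C, h1, h2⟩ := exists_cuts ℵ₀ ℵ₀ X le_rfl (by rw [hX, two_power_aleph0])
      aleph0_ne_zero (by
        calc Cardinal.sum (fun a : (ℵ₀ : Cardinal.{u}).ord.ToType => (2 : Cardinal.{u}) ^ #(Iio a))
            ≤ Cardinal.sum (fun _ : (ℵ₀ : Cardinal.{u}).ord.ToType => ℵ₀) := by
              refine Cardinal.sum_le_sum _ _ fun a => ?_
              exact (power_lt_aleph0 (natCast_lt_aleph0 (n := 2)) (mk_Iio_toType_ord_lt a)).le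
          _ = ℵ₀ * ℵ₀ := by rw [Cardinal.sum_const', mk_ord_toType]
          _ ≤ ℵ₀ := (mul_eq_self le_rfl).le)
    refine ⟨C, h1, h2, lt_of_le_of_lt h2 ?_⟩
    rw [hX, ← two_power_aleph0]
    exact lt_cof_ord_power le_rfl (by norm_num)
  · rintro ⟨C, h1, h2⟩ hs
    rw [hreg.cof_ord] at h2
    exact absurd (mk_le_two_power C h1) (not_le.2 (hs.two_power_lt h2))
  · have h0 : (#X) ≠ 0 := (aleph0_pos.trans_le hreg.aleph0_le).ne'
    have hex : ∃ x < #X, #X ≤ 2 ^ x := by
      by_contra hcon
      push Not at hcon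
      exact hns ⟨h0, fun x hx => hcon x hx⟩
    obtain ⟨x, hx, hx2⟩ := hex
    have hunc : ℵ₀ < #X := by
      refine lt_of_le_of_ne hreg.aleph0_le fun h => hns ?_
      rw [← h]
      exact isStrongLimit_aleph0
    set ν : Cardinal.{u} := sInf {c | #X ≤ 2 ^ c} with hν
    have hne : ({c : Cardinal.{u} | #X ≤ 2 ^ c}).Nonempty := ⟨x, hx2⟩
    have h1 : #X ≤ 2 ^ ν := csInf_mem hne
    have h2 : ν < #X := lt_of_le_of_lt (csInf_le' hx2) hx
    have h3 : ∀ l < ν, (2 : Cardinal.{u}) ^ l < #X := by
      intro l hl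
      by_contra hcon
      exact absurd hl (not_lt.2 (csInf_le' (show l ∈ {c : Cardinal.{u} | #X ≤ 2 ^ c} from
        not_lt.1 hcon)))
    have h4 : ν ≠ 0 := by
      intro h
      rw [h, power_zero] at h1
      exact absurd h1 (not_le.2 (one_lt_aleph0.trans hunc))
    have h5 : Cardinal.sum (fun a : ν.ord.ToType => (2 : Cardinal.{u}) ^ #(Iio a)) < #X := by
      refine sum_lt_of_isRegular hreg (by rw [mk_ord_toType]; exact h2) fun a => ?_
      exact h3 _ (mk_Iio_toType_ord_lt a)
    obtain ⟨C, h6, h7⟩ := exists_cuts ν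
      (max ℵ₀ (Cardinal.sum (fun a : ν.ord.ToType => (2 : Cardinal.{u}) ^ #(Iio a)))) X
      (le_max_left _ _) h1 h4 (le_max_right _ _)
    refine ⟨C, h6, ?_⟩
    rw [hreg.cof_ord]
    exact lt_of_le_of_lt h7 (max_lt hunc h5)

end Pool.Agent.Results.MP_98dabe_lc.SmallMaximalChains
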